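import Mathlib

set_option autoImplicit false

namespace Pool.Agent.HShift

open Finset

variable {α : Type} [LinearOrder α] {K : Type} [Field K]

def sg (K : Type) [Field K] (j : α) (G : Finset α) : K := (-1) ^ #{g ∈ G | g < j}

lemma sg_sq (j : α) (G : Finset α) : sg K j G * sg K j G = 1 := by
  rw [sg, ← mul_pow, neg_one_mul, neg_neg, one_pow]

lemma sg_ne (j : α) (G : Finset α) : sg K j G ≠ 0 := left_ne_zero_of_mul_eq_one (sg_sq j G)

lemma sg_swap {j v : α} {G : Finset α} (h : j ≠ v) (hj : j ∉ G) (hv : v ∉ G) :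
    sg K j (insert v G) * sg K v (insert j G) = -(sg K j G * sg K v G) := by
  simp only [sg, filter_insert]
  rcases h.lt_or_gt with h | h
  · rw [if_neg h.not_gt, if_pos h, card_insert_of_notMem (by simp [hj])]
    ring
  · rw [if_neg h.not_gt, if_pos h, card_insert_of_notMem (by simp [hv])]
    ring

def cone (v : α) (c : Finset α → K) (G : Finset α) : K :=
  if v ∈ G then sg K v (G.erase v) * c (G.erase v) else 0

lemma cone_insert {v : α} {G : Finset α} (h : v ∉ G) (c : Finset α → K) :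
    cone v c (insert v G) = sg K v G * c G := by
  rw [cone, if_pos (mem_insert_self _ _), erase_insert h]

def Supp (Δ : Finset α → Prop) (t : ℕ) (c : Finset α → K) : Prop := ∀ F, c F ≠ 0 → Δ F ∧ #F = t

omit [LinearOrder α] in
lemma Supp.sub {Δ : Finset α → Prop} {t : ℕ} {c d : Finset α → K} (hc : Supp Δ t c)
    (hd : Supp Δ t d) : Supp Δ t (c - d) := fun F h => by
  by_cases h1 : c F = 0
  · exact hd F fun h2 => h (by simp [h1, h2])
  · exact hc F h1

lemma Supp.cone {Δ Δ' : Finset α → Prop} {t : ℕ} {c : Finset α → K} {v : α} (hc : Supp Δ' t c)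
    (h : ∀ F, v ∉ F → Δ' F → #F = t → Δ (insert v F)) : Supp Δ (t + 1) (cone v c) := fun F hF => by
  have hv : v ∈ F := by_contra fun h => hF (if_neg h)
  obtain ⟨G, hG, rfl⟩ : ∃ G, v ∉ G ∧ F = insert v G := ⟨_, notMem_erase _ _, (insert_erase hv).symm⟩
  rw [cone_insert hG] at hF
  obtain ⟨h1, h2⟩ := hc G (right_ne_zero_of_mul hF)
  exact ⟨h G hG h1 h2, by rw [card_insert_of_notMem hG, h2]⟩

/-- Down-closed families with the augmentation property. -/
structure Mat (Δ : Finset α → Prop) : Prop where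
  down : ∀ F G, Δ G → F ⊆ G → Δ F
  aug : ∀ F G, Δ F → Δ G → #F < #G → ∃ x ∈ G, x ∉ F ∧ Δ (insert x F)

lemma Mat.del {Δ : Finset α → Prop} (h : Mat Δ) (v : α) : Mat fun F => Δ F ∧ v ∉ F :=
  ⟨fun F G h1 h2 => ⟨h.down F G h1.1 h2, fun h3 => h1.2 (h2 h3)⟩, fun F G h1 h2 h3 => by
    obtain ⟨x, h4, h5, h6⟩ := h.aug F G h1.1 h2.1 h3
    exact ⟨x, h4, h5, h6, by simp [h1.2, show v ≠ x from fun h => h2.2 (h ▸ h4)]⟩⟩

lemma Mat.lk {Δ : Finset α → Prop} (h : Mat Δ) (v : α) : Mat fun F => Δ (insert v F) ∧ v ∉ F :=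
  ⟨fun F G h1 h2 => ⟨h.down _ _ h1.1 (insert_subset_insert _ h2), fun h3 => h1.2 (h2 h3)⟩,
    fun F G h1 h2 h3 => by
    obtain ⟨x, h4, h5, h6⟩ := h.aug _ _ h1.1 h2.1
      (by rwa [card_insert_of_notMem h1.2, card_insert_of_notMem h2.2, add_lt_add_iff_right])
    rw [mem_insert, not_or] at h5
    exact ⟨x, (mem_insert.1 h4).resolve_left h5.1, h5.2, by rwa [insert_comm],
      by simp [h1.2, Ne.symm h5.1]⟩⟩

lemma Mat.ext {Δ : Finset α → Prop} (h : Mat Δ) {G : Finset α} (hG : Δ G) :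
    ∀ (m : ℕ) (F : Finset α), Δ F → #F + m = #G → ∃ H, Δ H ∧ F ⊆ H ∧ H ⊆ F ∪ G ∧ #H = #G
  | 0, F, h1, h2 => ⟨F, h1, subset_rfl, subset_union_left, h2⟩
  | m + 1, F, h1, h2 => by
    obtain ⟨x, h3, h4, h5⟩ := h.aug F G h1 hG (by omega)
    obtain ⟨H, h6, h7, h8, h9⟩ := h.ext hG m _ h5 (by rw [card_insert_of_notMem h4]; omega)
    exact ⟨H, h6, (subset_insert _ _).trans h7, h8.trans (union_subset
      (insert_subset (mem_union_right _ h3) subset_union_left) subset_union_right), h9⟩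

variable [Fintype α]

def bd (c : Finset α → K) (G : Finset α) : K := ∑ j ∈ Gᶜ, sg K j G * c (insert j G)

lemma bd_sub (c d : Finset α → K) : bd (c - d) = bd c - bd d := by
  ext G
  simp [bd, mul_sub]

lemma bd_zero : bd (0 : Finset α → K) = 0 := by
  ext G
  simp [bd]

lemma bd_cone (v : α) (c : Finset α → K) : bd (cone v c) = c - cone v (bd c) := by
  ext G
  rw [Pi.sub_apply]
  by_cases hv : v ∈ G
  · obtain ⟨G, hG, rfl⟩ : ∃ G', v ∉ G' ∧ G = insert v G' :=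
      ⟨_, notMem_erase _ _, (insert_erase hv).symm⟩
    rw [cone_insert hG, bd, bd, ← add_sum_erase _ _ (mem_compl.2 hG), mul_add, ← mul_assoc, sg_sq,
      one_mul, sub_add_cancel_left, compl_insert, mul_sum, ← sum_neg_distrib]
    refine sum_congr rfl fun j hj => ?_
    rw [mem_erase, mem_compl] at hj
    rw [insert_comm, cone_insert (by simp [hG, hj.1.symm]), ← mul_assoc, sg_swap hj.1 hj.2 hG]
    ring
  · rw [cone, if_neg hv, sub_zero, bd, sum_eq_single v (fun j _ hj => by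
      rw [cone, if_neg (by simp [hv, hj.symm]), mul_zero]) (by simp [hv]), cone_insert hv,
      ← mul_assoc, sg_sq, one_mul]

omit [Fintype α] in
lemma cone_zero (v : α) : cone v (0 : Finset α → K) = 0 := by
  ext G
  simp [cone]

lemma vanish (V : Finset α) : ∀ (Δ : Finset α → Prop), Mat Δ → (∀ F, Δ F → F ⊆ V) →
    ∀ (t : ℕ) (G : Finset α), Δ G → t < #G → ∀ c : Finset α → K, Supp Δ t c → bd c = 0 →
      ∃ w, Supp Δ (t + 1) w ∧ bd w = c := by
  induction V using Finset.strongInduction with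
  | H V ih =>
  intro Δ hΔ hV t G hG ht c hc h0
  obtain ⟨v, hv⟩ := card_pos.1 (zero_le.trans_lt ht)
  by_cases h : ∀ F, v ∉ F → Δ F → #F = t → Δ (insert v F)
  · exact ⟨cone v c, hc.cone h, by rw [bd_cone, h0, cone_zero, sub_zero]⟩
  push Not at h
  obtain ⟨F, h1, h2, h3, h4⟩ := h
  obtain ⟨x, -, h5, h6⟩ := hΔ.aug F G h2 hG (h3 ▸ ht)
  have hlt := erase_ssubset (hV G hG hv)
  let c1 : Finset α → K := fun G => if v ∈ G then 0 else sg K v G * c (insert v G)
  have e0 : ∀ G, v ∈ G → (c - cone v c1) G = 0 := fun G hG => by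
    simp only [c1, Pi.sub_apply, cone, if_pos hG, if_neg (notMem_erase v G), insert_erase hG]
    rw [← mul_assoc, sg_sq, one_mul, sub_self]
  have e1 : bd c1 = 0 := by
    ext G
    by_cases hG : v ∈ G
    · exact sum_eq_zero fun j _ => by simp [c1, hG]
    · have h7 : bd (c - cone v c1) (insert v G) = 0 :=
        sum_eq_zero fun j _ => by rw [e0 _ (by simp), mul_zero]
      rw [bd_sub, bd_cone, h0] at h7
      simpa [c1, cone_insert hG, sg_ne] using h7
  have s1 : ∀ G, c1 G ≠ 0 → (Δ (insert v G) ∧ v ∉ G) ∧ #G + 1 = t := fun G hG => by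
    have h7 : v ∉ G := fun h => hG (if_pos h)
    simp only [c1, if_neg h7] at hG
    have := hc _ (right_ne_zero_of_mul hG)
    exact ⟨⟨this.1, h7⟩, by rw [← this.2, card_insert_of_notMem h7]⟩
  obtain ⟨w1, h7, h8⟩ : ∃ w1, Supp (fun F => Δ (insert v F) ∧ v ∉ F) t w1 ∧ bd w1 = c1 := by
    rcases t with _ | t
    · exact ⟨0, fun _ h => absurd rfl h, bd_zero.trans (funext fun G =>
        by_contra fun h => by simpa using (s1 G (Ne.symm h)).2)⟩
    · exact ih _ hlt _ (hΔ.lk v) (fun F hF => subset_erase.2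
        ⟨(subset_insert _ _).trans (hV _ hF.1), hF.2⟩) t (G.erase v)
        ⟨by rwa [insert_erase hv], notMem_erase _ _⟩ (by rw [card_erase_of_mem hv]; omega) c1
        (fun G hG => ⟨(s1 G hG).1, by simpa using (s1 G hG).2⟩) e1
  obtain ⟨w0, h9, h10⟩ := ih _ hlt _ (hΔ.del v) (fun F hF => subset_erase.2 ⟨hV _ hF.1, hF.2⟩) t
    (insert x F) ⟨h6, by simp [h1, show v ≠ x from fun h => h4 (h ▸ h6)]⟩
    (by rw [card_insert_of_notMem h5]; omega) (c - cone v c1 - (0 - w1))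
    (Supp.sub (fun G hG => by
      have h9 : v ∉ G := fun h => hG (e0 G h)
      have := hc G (by simpa [cone, h9] using hG)
      exact ⟨⟨this.1, h9⟩, this.2⟩) (Supp.sub (fun _ h => absurd rfl h) fun G hG =>
        ⟨⟨hΔ.down _ _ (h7 G hG).1.1 (subset_insert _ _), (h7 G hG).1.2⟩, (h7 G hG).2⟩))
    (by simp only [bd_sub, bd_cone, h0, e1, h8, bd_zero, cone_zero]; ring)
  refine ⟨w0 - cone v w1, Supp.sub (fun G hG => ⟨(h9 G hG).1.1, (h9 G hG).2⟩)
    (h7.cone fun F _ h _ => h.1), ?_⟩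
  rw [bd_sub, bd_cone, h8, h10]
  ring

lemma cycle : ∀ (r : ℕ) (Δ : Finset α → Prop), Mat Δ → (∃ F, Δ F ∧ #F = r) →
    (∀ v, ∃ F, Δ F ∧ #F = r ∧ v ∉ F) → ∃ c : Finset α → K, Supp Δ r c ∧ bd c = 0 ∧ c ≠ 0
  | 0, Δ, _, ⟨F, h1, h2⟩, _ => ⟨Pi.single F 1, fun G hG => by
      obtain rfl : G = F := by_contra fun h => hG (Pi.single_eq_of_ne h _)
      exact ⟨h1, h2⟩, funext fun G => sum_eq_zero fun j _ => by
        rw [card_eq_zero.1 h2, Pi.single_eq_of_ne (insert_ne_empty _ _), mul_zero], by simp⟩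
  | r + 1, Δ, hΔ, ⟨F, h1, h2⟩, h => by
    obtain ⟨v, hv⟩ := card_pos.1 (show 0 < #F by omega)
    have h3 : ∀ H, Δ H → #H = r + 1 → v ∈ H →
        (Δ (insert v (H.erase v)) ∧ v ∉ H.erase v) ∧ #(H.erase v) = r := fun H h1 h2 h3 =>
      ⟨⟨by rwa [insert_erase h3], notMem_erase _ _⟩, by rw [card_erase_of_mem h3]; omega⟩
    obtain ⟨z, h4, h5, h6⟩ := cycle r _ (hΔ.lk v) ⟨_, h3 F h1 h2 hv⟩ fun u => by
      by_cases hu : u = v
      · exact ⟨_, (h3 F h1 h2 hv).1, (h3 F h1 h2 hv).2, by simp [hu]⟩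
      · obtain ⟨G, h4, h5, h6⟩ := h u
        obtain ⟨H, h7, h8, h9, h10⟩ := hΔ.ext h4 r {v} (hΔ.down _ _ h1 (by simpa)) (by simp; omega)
        have := h3 H h7 (h10.trans h5) (by simpa using h8)
        exact ⟨_, this.1, this.2, fun h => by simpa [hu, h6] using h9 (mem_of_mem_erase h)⟩
    obtain ⟨G, h7, h8, h9⟩ := h v
    obtain ⟨w, h10, h11⟩ := vanish univ _ (hΔ.del v) (fun _ _ => subset_univ _) r G ⟨h7, h9⟩
      (by omega) z (fun F hF => ⟨⟨hΔ.down _ _ (h4 F hF).1.1 (subset_insert _ _), (h4 F hF).1.2⟩,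
        (h4 F hF).2⟩) h5
    refine ⟨cone v z - w, (h4.cone fun F _ h _ => h.1).sub fun G hG => ⟨(h10 G hG).1.1,
      (h10 G hG).2⟩, by rw [bd_sub, bd_cone, h5, h11, cone_zero, sub_zero, sub_self],
      fun h0 => h6 (funext fun H => by_contra fun hH => ?_)⟩
    have h12 := congrFun h0 (insert v H)
    have h13 : w (insert v H) = 0 := by_contra fun h => (h10 _ h).1.2 (mem_insert_self _ _)
    rw [Pi.sub_apply, h13, sub_zero, cone_insert (h4 H hH).1.2] at h12
    exact mul_ne_zero (sg_ne _ _) hH h12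

lemma homology {Δ : Finset α → Prop} (hΔ : Mat Δ) (t : ℕ) :
    (∃ c : Finset α → K, Supp Δ t c ∧ bd c = 0 ∧ ¬ ∃ w, Supp Δ (t + 1) w ∧ bd w = c) ↔
      (∀ G, Δ G → #G ≤ t) ∧ (∃ F, Δ F ∧ #F = t) ∧ ∀ v, ∃ F, Δ F ∧ #F = t ∧ v ∉ F := by
  constructor
  · rintro ⟨c, h1, h2, h3⟩
    refine ⟨fun G hG => not_lt.1 fun h =>
      h3 (vanish univ Δ hΔ (fun _ _ => subset_univ _) t G hG h c h1 h2), ?_, fun v => ?_⟩
    · by_contra h
      exact h3 ⟨0, fun _ h => absurd rfl h, bd_zero.trans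
        (funext fun F => by_contra fun h4 => h ⟨F, h1 F (Ne.symm h4)⟩)⟩
    · by_contra h
      exact h3 ⟨cone v c, h1.cone fun F h4 h5 h6 => absurd ⟨F, h5, h6, h4⟩ h,
        by rw [bd_cone, h2, cone_zero, sub_zero]⟩
  · rintro ⟨h1, h2, h3⟩
    obtain ⟨c, h4, h5, h6⟩ := cycle (K := K) t Δ hΔ h2 h3
    refine ⟨c, h4, h5, fun ⟨w, h7, h8⟩ => h6 ?_⟩
    rw [← h8, show w = 0 from funext fun F => by_contra fun h => by
      have := h1 F (h7 F h).1
      have := (h7 F h).2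
      omega, bd_zero]

end Pool.Agent.HShift
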