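import Pool.Agent.H.MP_8dad47_al.A

set_option autoImplicit false

namespace Pool.Agent.HShift

open Finset Relation

variable {α : Type} [LinearOrder α]

def Mv (b y : α →₀ ℕ) (u w : α) : Prop :=
  ∀ j, y j + (if j = w then 1 else 0) = b j + if j = u then 1 else 0

def Ex (B : Set (α →₀ ℕ)) (b : α →₀ ℕ) (u w : α) : Prop := ∃ y ∈ B, Mv b y u w

lemma Ex.rfl {B : Set (α →₀ ℕ)} {b : α →₀ ℕ} (h : b ∈ B) (u : α) : Ex B b u u :=
  ⟨b, h, fun _ => _root_.rfl⟩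

lemma Ex.comp {B : Set (α →₀ ℕ)} {b y : α →₀ ℕ} {u w z : α} (h : Mv b y u w) (h' : Ex B y w z) :
    Ex B b u z := by
  obtain ⟨x, h1, h2⟩ := h'
  exact ⟨x, h1, fun j => (h2 j).trans (h j)⟩

lemma Mv.sum {b y : α →₀ ℕ} {u w : α} (h : Mv b y u w) (R : Finset α) :
    ∑ j ∈ R, y j + (if w ∈ R then 1 else 0) = ∑ j ∈ R, b j + if u ∈ R then 1 else 0 := by
  simpa [sum_add_distrib] using sum_congr (rfl : R = R) fun j _ => h j

variable [Fintype α]

/-- Sets of bases of discrete polymatroids. -/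
structure MC (B : Set (α →₀ ℕ)) : Prop where
  deg : ∀ u ∈ B, ∀ v ∈ B, ∑ j, u j = ∑ j, v j
  ex : ∀ u ∈ B, ∀ v ∈ B, ∀ p, v p < u p → ∃ q, u q < v q ∧ Ex B u q p

variable {B : Set (α →₀ ℕ)}

lemma MC.two (hB : MC B) {b y : α →₀ ℕ} {u w u' w' : α} (hb : b ∈ B) (hy : y ∈ B)
    (h : Mv b y u w) (h' : Ex B b u' w') (hn : ¬ Ex B b u w') : Ex B y u' w' := by
  obtain ⟨z, hz, h'⟩ := h'
  by_cases h1 : u' = w'
  · exact h1 ▸ Ex.rfl hy _
  have h2 : w' ≠ w := fun h2 => hn ⟨y, hy, h2 ▸ h⟩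
  have h3 : w' ≠ u := fun h3 => hn (h3 ▸ Ex.rfl hb _)
  obtain ⟨q, h4, h5⟩ := hB.ex y hy z hz w' (by
    have := h w'
    have := h' w'
    grind)
  by_cases h6 : q = u'
  · exact h6 ▸ h5
  · obtain rfl : q = w := by
      have := h q
      have := h' q
      grind
    exact absurd (Ex.comp h h5) hn

lemma MC.trans (hB : MC B) {b : α →₀ ℕ} {u w z : α} (hb : b ∈ B) (h : Ex B b u w)
    (h' : Ex B b w z) : Ex B b u z := by
  obtain ⟨y, hy, h⟩ := h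
  exact by_contra fun hn => hn (Ex.comp h (hB.two hb hy h h' hn))

lemma MC.tight (hB : MC B) {b : α →₀ ℕ} (hb : b ∈ B) {R : Finset α}
    (h : ∀ u ∈ R, ∀ w, Ex B b u w → w ∈ R) (y : α →₀ ℕ) (hy : y ∈ B) :
    ∑ j ∈ R, y j ≤ ∑ j ∈ R, b j := by
  induction hm : ∑ j, (y j - b j) using Nat.strong_induction_on generalizing y with
  | h m ih =>
  by_cases h1 : ∃ p ∉ R, b p < y p
  · obtain ⟨p, h1, h2⟩ := h1
    obtain ⟨q, h3, z, hz, h4⟩ := hB.ex y hy b hb p h2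
    have h5 := ih _ (hm ▸ sum_lt_sum (fun j _ => by have := h4 j; grind)
      ⟨p, mem_univ _, by have := h4 p; grind⟩) z hz rfl
    have := h4.sum R
    grind
  push Not at h1
  have h2 : ∀ p ∈ Rᶜ, b p = y p := fun p hp => by
    refine le_antisymm (not_lt.1 fun h2 => ?_) (h1 p (mem_compl.1 hp))
    obtain ⟨q, h3, h4⟩ := hB.ex b hb y hy p h2
    exact mem_compl.1 hp (h q (by_contra fun h => (h1 q h).not_gt h3) p h4)
  have := hB.deg b hb y hy
  have h3 : ∑ j ∈ Rᶜ, b j = ∑ j ∈ Rᶜ, y j := sum_congr rfl h2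
  rw [← sum_add_sum_compl R, ← sum_add_sum_compl R] at this
  omega

def Walk (r : α → α → Prop) : ℕ → α → α → Prop
  | 0, u, w => u = w
  | m + 1, u, w => ∃ x, r u x ∧ Walk r m x w

/-- Sums of `k` elements of `B`. -/
def Sm (B : Set (α →₀ ℕ)) (k : ℕ) : Set (α →₀ ℕ) :=
  {x | ∃ b : Fin k → α →₀ ℕ, (∀ s, b s ∈ B) ∧ ∑ s, b s = x}

lemma MC.walk (hB : MC B) {k : ℕ} (m : ℕ) : ∀ (b : Fin k → α →₀ ℕ), (∀ s, b s ∈ B) → ∀ u w,
    Walk (fun u w => ∃ s, Ex B (b s) u w) m u w → Ex (Sm B k) (∑ s, b s) u w := by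
  induction m using Nat.strong_induction_on with
  | h m ih =>
  intro b hb u w h
  rcases m with _ | m
  · obtain rfl : u = w := h
    exact ⟨_, ⟨b, hb, rfl⟩, fun _ => rfl⟩
  obtain ⟨x, ⟨s, y, hy, h1⟩, h2⟩ := h
  have key : ∀ m x, Walk (fun u w => ∃ s, Ex B (b s) u w) m x w →
      Walk (fun u w => ∃ t, Ex B (Function.update b s y t) u w) m x w ∨
        ∃ m' < m, Walk (fun u w => ∃ s, Ex B (b s) u w) (m' + 1) u w := by
    intro m
    induction m with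
    | zero => exact fun _ h => .inl h
    | succ m ih =>
      rintro x ⟨x', ⟨t, h3⟩, h4⟩
      rcases ih x' h4 with h5 | ⟨m', h5, h6⟩
      · by_cases h6 : t = s
        · subst h6
          by_cases h7 : Ex B (b t) u x'
          · exact .inr ⟨m, by omega, x', ⟨t, h7⟩, h4⟩
          · exact .inl ⟨x', ⟨t, by simpa using hB.two (hb t) hy h1 h3 h7⟩, h5⟩
        · exact .inl ⟨x', ⟨t, by rwa [Function.update_of_ne h6]⟩, h5⟩
      · exact .inr ⟨m', by omega, h6⟩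
  rcases key m x h2 with h3 | ⟨m', h3, h4⟩
  · refine Ex.comp (fun j => ?_) (ih m (by omega) _ (fun t => ?_) x w h3)
    · have := h1 j
      rw [sum_update_of_mem (mem_univ _), ← add_sum_erase _ _ (mem_univ s), sdiff_singleton_eq_erase,
        Finsupp.add_apply, Finsupp.add_apply]
      omega
    · by_cases h : t = s
      · simpa [h] using hy
      · simpa [h] using hb t
  · exact ih _ (by omega) b hb u w h4

lemma MC.path (hB : MC B) {k : ℕ} {b : Fin k → α →₀ ℕ} (hb : ∀ s, b s ∈ B) {u w : α}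
    (h : ReflTransGen (fun u w => ∃ s, Ex B (b s) u w) u w) : Ex (Sm B k) (∑ s, b s) u w := by
  have : ∃ m, Walk (fun u w => ∃ s, Ex B (b s) u w) m u w := by
    induction h using ReflTransGen.head_induction_on with
    | refl => exact ⟨0, rfl⟩
    | head h _ ih => exact ih.elim fun m h' => ⟨m + 1, _, h, h'⟩
  exact this.elim fun m h => hB.walk m b hb u w h

lemma MC.tights (hB : MC B) {k : ℕ} {b : Fin k → α →₀ ℕ} (hb : ∀ s, b s ∈ B) {R : Finset α}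
    (h : ∀ u ∈ R, ∀ w s, Ex B (b s) u w → w ∈ R) {y : α →₀ ℕ} (hy : y ∈ Sm B k) :
    ∑ j ∈ R, y j ≤ ∑ j ∈ R, (∑ s, b s) j := by
  obtain ⟨c, hc, rfl⟩ := hy
  simp only [Finsupp.finsetSum_apply]
  rw [sum_comm, sum_comm (s := R)]
  exact sum_le_sum fun s _ => hB.tight (hb s) (fun u hu w => h u hu w s) _ (hc s)

lemma MC.sm (hB : MC B) (k : ℕ) : MC (Sm B k) := by
  classical
  have h0 : ∀ u ∈ Sm B k, ∀ v ∈ Sm B k, ∑ j, u j = ∑ j, v j := by
    rintro _ ⟨b, hb, rfl⟩ v hv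
    obtain ⟨c, hc, rfl⟩ := id hv
    exact le_antisymm (hB.tights hc (by simp) ⟨b, hb, rfl⟩) (hB.tights hb (by simp) hv)
  refine ⟨h0, ?_⟩
  rintro _ ⟨b, hb, rfl⟩ v hv p hp
  by_contra h
  let R : Finset α := {w | ∃ q, (∑ s, b s) q < v q ∧
    ReflTransGen (fun u w => ∃ s, Ex B (b s) u w) q w}
  have h1 := hB.tights hb (R := R) (fun u hu w s h => by
    obtain ⟨q, h1, h2⟩ := (mem_filter.1 hu).2
    exact mem_filter.2 ⟨mem_univ _, q, h1, h2.tail ⟨s, h⟩⟩) hv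
  have h2 : ∑ j ∈ Rᶜ, v j < ∑ j ∈ Rᶜ, (∑ s, b s) j :=
    sum_lt_sum (fun j hj => not_lt.1 fun h => mem_compl.1 hj
      (mem_filter.2 ⟨mem_univ _, j, h, .refl⟩)) ⟨p, mem_compl.2 fun h3 => by
        obtain ⟨q, h1, h2⟩ := (mem_filter.1 h3).2
        exact h ⟨q, h1, hB.path hb h2⟩, hp⟩
  have := h0 _ ⟨b, hb, rfl⟩ v hv
  rw [← sum_add_sum_compl R, ← sum_add_sum_compl R] at this
  omega

lemma MC.key (hB : MC B) {x y a : α →₀ ℕ} (hx : x ∈ B) (hy : y ∈ B) {F G Y : Finset α}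
    {Z : α → Prop} (h2 : ∀ j, y j + (if j ∈ G then 1 else 0) ≤ a j)
    (h3 : ∀ j, x j + (if j ∈ F then 1 else 0) < a j → Z j)
    (hY : ∀ w, w ∈ Y ↔ ∃ z, Z z ∧ Ex B x z w) : #(G \ Y) ≤ #(F \ Y) := by
  have h4 := hB.tight hx (R := Y) (fun u hu w h => by
    obtain ⟨z, h1, h2⟩ := (hY u).1 hu
    exact (hY w).2 ⟨z, h1, hB.trans hx h2 h⟩) y hy
  have h5 := hB.deg x hx y hy
  rw [← sum_add_sum_compl Y, ← sum_add_sum_compl Y] at h5
  have h6 : ∑ j ∈ Yᶜ, (y j + if j ∈ G then 1 else 0) ≤ ∑ j ∈ Yᶜ, (x j + if j ∈ F then 1 else 0) :=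
    sum_le_sum fun j hj => (h2 j).trans (not_lt.1 fun h => mem_compl.1 hj
      ((hY j).2 ⟨j, h3 j h, Ex.rfl hx j⟩))
  simp only [sum_add_distrib, sum_boole, filter_mem_eq_inter, Nat.cast_id] at h6
  rw [sdiff_eq_inter_compl, sdiff_eq_inter_compl, inter_comm, inter_comm F]
  omega

/-- The upper Koszul simplicial complex. -/
def Dl (B : Set (α →₀ ℕ)) (a : α →₀ ℕ) (F : Finset α) : Prop :=
  ∃ x ∈ B, ∀ j, x j + (if j ∈ F then 1 else 0) ≤ a j

omit [Fintype α] in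
lemma Dl.ins {x a : α →₀ ℕ} {F : Finset α} (h1 : ∀ j, x j + (if j ∈ F then 1 else 0) ≤ a j)
    {z w : α} (h2 : x z + (if z ∈ F then 1 else 0) < a z) (h : Ex B x z w) (hw : w ∉ F) :
    Dl B a (insert w F) := by
  obtain ⟨y, hy, h⟩ := h
  refine ⟨y, hy, fun j => ?_⟩
  have := h j
  have := h1 j
  grind

lemma MC.mat (hB : MC B) (a : α →₀ ℕ) : Mat (Dl B a) := by
  classical
  refine ⟨fun F G ⟨x, hx, h1⟩ h2 => ⟨x, hx, fun j => ?_⟩, fun F G ⟨x, hx, h1⟩ ⟨y, hy, h2⟩ h3 => ?_⟩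
  · have := h1 j
    have := @h2 j
    grind
  · by_contra h
    let Y : Finset α := {w | ∃ z, x z + (if z ∈ F then 1 else 0) < a z ∧ Ex B x z w}
    have h4 := hB.key hx hy (F := F) (Y := Y) h2 (fun _ h => h) fun w => by simp [Y]
    have h5 : G ∩ Y ⊆ F ∩ Y := fun w hw => by
      rw [mem_inter] at hw ⊢
      obtain ⟨z, h5, h6⟩ := (mem_filter.1 hw.2).2
      exact ⟨by_contra fun h7 => h ⟨w, hw.1, h7, Dl.ins h1 h5 h6 h7⟩, hw.2⟩
    have := card_le_card h5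
    have := card_sdiff_add_card_inter G Y
    have := card_sdiff_add_card_inter F Y
    omega

/-- The multidegrees of the `i`-th syzygies. -/
def HSc (B : Set (α →₀ ℕ)) (i : ℕ) (a : α →₀ ℕ) : Prop :=
  ∃ F, #F = i ∧ ∃ x ∈ B, (∀ j, x j + (if j ∈ F then 1 else 0) = a j) ∧ ∀ j ∈ F, ∃ l ∉ F, Ex B x j l

lemma MC.hsc (hB : MC B) (i : ℕ) (a : α →₀ ℕ) :
    ((∀ G, Dl B a G → #G ≤ i) ∧ (∃ F, Dl B a F ∧ #F = i) ∧ ∀ v, ∃ F, Dl B a F ∧ #F = i ∧ v ∉ F) ↔
      HSc B i a := by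
  classical
  constructor
  · rintro ⟨h1, ⟨F, ⟨x, hx, h2⟩, h3⟩, h4⟩
    have h5 : ∀ z w, x z + (if z ∈ F then 1 else 0) < a z → Ex B x z w → w ∈ F :=
      fun z w h5 h6 => by_contra fun h7 => by
        have := h1 _ (Dl.ins h2 h5 h6 h7)
        rw [card_insert_of_notMem h7] at this
        omega
    have h6 : ∀ j ∈ F, ∃ l ∉ F, Ex B x j l := fun j hj => by
      by_contra h
      obtain ⟨G, ⟨y, hy, h6⟩, h7, h8⟩ := h4 j
      let Y : Finset α := {w | ∃ z, (x z + (if z ∈ F then 1 else 0) < a z ∨ z = j) ∧ Ex B x z w}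
      have h9 := hB.key hx hy (F := F) (Y := Y) h6
        (Z := fun z => x z + (if z ∈ F then 1 else 0) < a z ∨ z = j) (fun _ h => .inl h)
        fun w => by simp only [Y, mem_filter_univ]
      have h10 : G ∩ Y ⊂ F ∩ Y := by
        refine ⟨fun w hw => ?_, fun h => h8 (mem_inter.1 (h (mem_inter.2 ⟨hj,
          mem_filter.2 ⟨mem_univ _, j, .inr rfl, Ex.rfl hx j⟩⟩))).1⟩
        rw [mem_inter] at hw ⊢
        obtain ⟨z, h10 | rfl, h11⟩ := (mem_filter.1 hw.2).2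
        · exact ⟨h5 z w h10 h11, hw.2⟩
        · exact ⟨by_contra fun h12 => h ⟨w, h12, h11⟩, hw.2⟩
      have := card_lt_card h10
      have := card_sdiff_add_card_inter G Y
      have := card_sdiff_add_card_inter F Y
      omega
    refine ⟨F, h3, x, hx, fun j => (h2 j).antisymm (not_lt.1 fun h => ?_), h6⟩
    obtain ⟨l, h7, h8⟩ := h6 j (h5 j j h (Ex.rfl hx j))
    exact h7 (h5 j l h h8)
  · rintro ⟨F, h1, x, hx, h2, h3⟩
    refine ⟨fun G ⟨y, hy, h4⟩ => ?_, ⟨F, ⟨x, hx, fun j => (h2 j).le⟩, h1⟩, fun v => ?_⟩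
    · have h5 := sum_le_sum fun j (_ : j ∈ univ) => (h4 j).trans (h2 j).ge
      simp only [sum_add_distrib, sum_boole, filter_mem_eq_inter, Nat.cast_id, univ_inter] at h5
      have := hB.deg x hx y hy
      omega
    · by_cases hv : v ∈ F
      · obtain ⟨l, h4, y, hy, h5⟩ := h3 v hv
        refine ⟨insert l (F.erase v), ⟨y, hy, fun j => ?_⟩, ?_, by grind⟩
        · have := h5 j
          have := h2 j
          grind
        · rw [card_insert_of_notMem (by simp [h4]), card_erase_add_one hv, h1]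
      · exact ⟨F, ⟨x, hx, fun j => (h2 j).le⟩, h1, hv⟩

omit [Fintype α] in
lemma few {ι : Type} [DecidableEq ι] (r : ι → α → α → Prop) (m : ℕ) : ∀ F : Finset α, #F = m →
    (∀ j ∈ F, ∃ l ∉ F, ReflTransGen (fun u w => ∃ s, r s u w) j l) →
    ∃ S : Finset ι, #S ≤ m ∧ ∀ j ∈ F, ∃ l ∉ F, ReflTransGen (fun u w => ∃ s ∈ S, r s u w) j l := by
  induction m with
  | zero => exact fun F h _ => ⟨∅, le_rfl, by simp [card_eq_zero.1 h]⟩
  | succ m ih =>
    intro F h1 h2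
    obtain ⟨j, hj⟩ := card_pos.1 (show 0 < #F by omega)
    obtain ⟨l, h3, h4⟩ := h2 j hj
    obtain ⟨j, hj, l, h3, s, h4⟩ : ∃ j ∈ F, ∃ l ∉ F, ∃ s, r s j l := by
      by_contra h
      induction h4 with
      | refl => exact h3 hj
      | tail _ h5 ih => exact ih fun h6 => h ⟨_, h6, _, h3, h5⟩
    obtain ⟨S, h5, h6⟩ := ih (F.erase j) (by rw [card_erase_of_mem hj]; omega) fun i hi => by
      obtain ⟨l, h5, h6⟩ := h2 i (mem_of_mem_erase hi)
      exact ⟨l, fun h => h5 (mem_of_mem_erase h), h6⟩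
    have h7 : ReflTransGen (fun u w => ∃ t ∈ insert s S, r t u w) j l :=
      .single ⟨s, mem_insert_self _ _, h4⟩
    refine ⟨insert s S, (card_insert_le _ _).trans (by omega), fun i hi => ?_⟩
    by_cases h8 : i = j
    · exact ⟨l, h3, h8 ▸ h7⟩
    · obtain ⟨l', h9, h10⟩ := h6 i (mem_erase.2 ⟨h8, hi⟩)
      have h11 : ReflTransGen (fun u w => ∃ t ∈ insert s S, r t u w) i l' :=
        ReflTransGen.mono (fun _ _ ⟨t, h, h'⟩ => ⟨t, mem_insert_of_mem h, h'⟩) _ _ h10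
      by_cases h12 : l' = j
      · exact ⟨l, h3, (h12 ▸ h11).trans h7⟩
      · exact ⟨l', fun h => h9 (mem_erase.2 ⟨h12, h⟩), h11⟩

omit [LinearOrder α] [Fintype α] in
lemma Sm.add {k : ℕ} {b x : α →₀ ℕ} (hb : b ∈ B) (hx : x ∈ Sm B k) : b + x ∈ Sm B (k + 1) := by
  obtain ⟨c, hc, rfl⟩ := hx
  exact ⟨Fin.cons b c, Fin.cases hb hc, by simp [Fin.sum_univ_succ]⟩

lemma MC.step (hB : MC B) {i k : ℕ} (hik : i ≤ k) (a : α →₀ ℕ) :
    HSc (Sm B (k + 1)) i a ↔ ∃ b ∈ B, ∃ a', HSc (Sm B k) i a' ∧ b + a' = a := by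
  classical
  constructor
  · rintro ⟨F, h1, _, ⟨b, hb, rfl⟩, h2, h3⟩
    obtain ⟨S, h4, h5⟩ := few (fun s => Ex B (b s)) i F h1 fun j hj => by
      by_contra h
      obtain ⟨l, h4, y, hy, h5⟩ := h3 j hj
      let R : Finset α := {w | ReflTransGen (fun u w => ∃ s, Ex B (b s) u w) j w}
      have h6 := hB.tights hb (R := R) (fun u hu w s h =>
        mem_filter.2 ⟨mem_univ _, (mem_filter.1 hu).2.tail ⟨s, h⟩⟩) hy
      have h7 := h5.sum R
      rw [if_neg fun h8 => h ⟨l, h4, (mem_filter.1 h8).2⟩,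
        if_pos (mem_filter.2 ⟨mem_univ _, .refl⟩)] at h7
      omega
    obtain ⟨s, -, hs⟩ := exists_mem_notMem_of_card_lt_card (s := S) (t := univ) (by simp; omega)
    rw [Fin.sum_univ_succAbove _ s] at h2
    refine ⟨b s, hb s, a - b s, ⟨F, h1, _, ⟨fun t => b (s.succAbove t), fun t => hb _, rfl⟩,
      fun j => ?_, fun j hj => ?_⟩, Finsupp.ext fun j => ?_⟩
    · have := h2 j
      simp only [Finsupp.add_apply, Finsupp.tsub_apply] at this ⊢
      omega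
    · obtain ⟨l, h6, h7⟩ := h5 j hj
      refine ⟨l, h6, hB.path (fun t => hb _) (ReflTransGen.mono (fun _ _ ⟨t, h, h'⟩ => ?_) _ _ h7)⟩
      obtain ⟨t, rfl⟩ := Fin.exists_succAbove_eq (show t ≠ s from fun e => hs (e ▸ h))
      exact ⟨t, h'⟩
    · have := h2 j
      simp only [Finsupp.add_apply, Finsupp.tsub_apply] at this ⊢
      omega
  · rintro ⟨b, hb, a', ⟨F, h1, x, hx, h2, h3⟩, rfl⟩
    refine ⟨F, h1, _, Sm.add hb hx, fun j => by simp [← h2 j, add_assoc], fun j hj => ?_⟩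
    obtain ⟨l, h4, y, hy, h5⟩ := h3 j hj
    exact ⟨l, h4, _, Sm.add hb hy, fun v => by simp [add_assoc, h5 v]⟩

end Pool.Agent.HShift
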