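import Pool.Agent.H.MP_8dad47_al.B

set_option autoImplicit false

namespace Pool.Agent.HShift

open Finset MvPolynomial

variable {n : ℕ} {K : Type} [Field K]

/-- Elements of multidegree `a` of the `i`-th term of the Koszul complex of `J` with respect to
the variables: `c F` is the coefficient of the basis element `e_F`. -/
def IsChain (J : Ideal (MvPolynomial (Fin n) K)) (i : ℕ) (a : Fin n →₀ ℕ)
    (c : Finset (Fin n) → MvPolynomial (Fin n) K) : Prop :=
  ∀ F, c F ∈ J ∧ ∀ m ∈ (c F).support, F.card = i ∧ m + ∑ j ∈ F, Finsupp.single j 1 = a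

/-- The Koszul differential. -/
noncomputable def kd (c : Finset (Fin n) → MvPolynomial (Fin n) K) (G : Finset (Fin n)) :
    MvPolynomial (Fin n) K :=
  ∑ j ∈ Gᶜ, (-1) ^ (G.filter (· < j)).card * X j * c (insert j G)

/-- The `i`-th Koszul homology of `J`, that is `Tor_i(K, J)`, is nonzero in multidegree `a`. -/
def TorNe (J : Ideal (MvPolynomial (Fin n) K)) (i : ℕ) (a : Fin n →₀ ℕ) : Prop :=
  ∃ c, IsChain J i a c ∧ kd c = 0 ∧ ¬ ∃ w, IsChain J (i + 1) a w ∧ kd w = c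

/-- The `i`-th homological shift ideal. -/
noncomputable def HS (i : ℕ) (J : Ideal (MvPolynomial (Fin n) K)) :
    Ideal (MvPolynomial (Fin n) K) :=
  Ideal.span ((fun a => monomial a (1 : K)) '' {a | TorNe J i a})

/-- Polymatroidal ideals. -/
def IsPolymatroidal (I : Ideal (MvPolynomial (Fin n) K)) : Prop :=
  ∃ B : Set (Fin n →₀ ℕ), I = Ideal.span ((fun a => monomial a (1 : K)) '' B) ∧
    (∀ u ∈ B, ∀ v ∈ B, u.degree = v.degree) ∧ ∀ u ∈ B, ∀ v ∈ B, ∀ p, v p < u p →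
      ∃ q, u q < v q ∧ u + Finsupp.single q 1 - Finsupp.single p 1 ∈ B

noncomputable def ee (F : Finset (Fin n)) : Fin n →₀ ℕ := ∑ j ∈ F, Finsupp.single j 1

lemma ee_apply (F : Finset (Fin n)) (j : Fin n) : ee F j = if j ∈ F then 1 else 0 := by
  simp [ee, Finsupp.finsetSum_apply, Finsupp.single_apply]

noncomputable def Ph (a : Fin n →₀ ℕ) (c : Finset (Fin n) → K) (F : Finset (Fin n)) :
    MvPolynomial (Fin n) K := monomial (a - ee F) (c F)

lemma Ph_inj {a : Fin n →₀ ℕ} {c d : Finset (Fin n) → K} (h : Ph a c = Ph a d) : c = d :=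
  funext fun F => by simpa [Ph] using congrArg (coeff (a - ee F)) (congrFun h F)

variable {B : Set (Fin n →₀ ℕ)} {a : Fin n →₀ ℕ} {i : ℕ}

lemma Dl.le {F : Finset (Fin n)} (h : Dl B a F) : ee F ≤ a := fun j => by
  obtain ⟨x, -, h⟩ := h
  have := h j
  rw [ee_apply]
  omega

lemma chain_iff {c : Finset (Fin n) → MvPolynomial (Fin n) K} :
    IsChain (Ideal.span ((fun a => monomial a (1 : K)) '' B)) i a c ↔
      ∃ d, Supp (Dl B a) i d ∧ Ph a d = c := by
  constructor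
  · intro h
    refine ⟨fun F => coeff (a - ee F) (c F), fun F hF => ?_, funext fun F => ?_⟩
    · obtain ⟨h1, h2⟩ := (h F).2 _ (mem_support_iff.2 hF)
      obtain ⟨x, hx, h3⟩ := mem_ideal_span_monomial_image.1 (h F).1 _ (mem_support_iff.2 hF)
      refine ⟨⟨x, hx, fun j => ?_⟩, h1⟩
      rw [← ee_apply, ← h2]
      exact Nat.add_le_add_right (h3 j) _
    · refine (eq_monomial_of_support_subset_singleton fun m hm => ?_).symm
      rw [← ((h F).2 m hm).2, ee, add_tsub_cancel_right]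
  · rintro ⟨d, h, rfl⟩ F
    by_cases h0 : d F = 0
    · simp [Ph, h0]
    obtain ⟨h1, h2⟩ := h F h0
    refine ⟨mem_ideal_span_monomial_image.2 fun m hm => ?_, fun m hm => ?_⟩ <;>
      obtain rfl := mem_singleton.1 (support_monomial_subset hm)
    · obtain ⟨x, hx, h3⟩ := h1
      refine ⟨x, hx, fun j => ?_⟩
      have := h3 j
      rw [Finsupp.tsub_apply, ee_apply]
      omega
    · exact ⟨h2, tsub_add_cancel_of_le h1.le⟩

lemma kd_Ph {d : Finset (Fin n) → K} (h : Supp (Dl B a) i d) : kd (Ph a d) = Ph a (bd d) := by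
  ext1 G
  rw [kd, Ph, bd, map_sum]
  refine sum_congr rfl fun j hj => ?_
  by_cases h0 : d (insert j G) = 0
  · simp [Ph, h0]
  have h1 := (h _ h0).1.le
  rw [mem_compl] at hj
  have h2 : Finsupp.single j 1 + (a - ee (insert j G)) = a - ee G := by
    ext v
    have := h1 v
    simp only [Finsupp.add_apply, Finsupp.tsub_apply, ee_apply, Finsupp.single_apply] at this ⊢
    grind
  rw [Ph, mul_assoc, X, monomial_mul, h2, one_mul, ← C_mul_monomial, sg, map_pow, map_neg, map_one]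

lemma tor_iff (hB : MC B) :
    TorNe (Ideal.span ((fun a => monomial a (1 : K)) '' B)) i a ↔ HSc B i a := by
  rw [← hB.hsc, ← homology (K := K) (hB.mat a)]
  have e : ∀ d : Finset (Fin n) → K, (∃ w, IsChain (Ideal.span ((fun a => monomial a (1 : K)) '' B))
      (i + 1) a w ∧ kd w = Ph a d) ↔ ∃ w, Supp (Dl B a) (i + 1) w ∧ bd w = d := fun d => by
    simp only [chain_iff]
    exact ⟨fun ⟨_, ⟨w, h1, h2⟩, h3⟩ => ⟨w, h1, Ph_inj (by rw [← h3, ← h2, kd_Ph h1])⟩,
      fun ⟨w, h1, h2⟩ => ⟨_, ⟨w, h1, rfl⟩, by rw [kd_Ph h1, h2]⟩⟩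
  have e0 : Ph a (0 : Finset (Fin n) → K) = 0 := funext fun F => by simp [Ph]
  constructor
  · rintro ⟨c, h1, h2, h3⟩
    obtain ⟨d, h4, rfl⟩ := chain_iff.1 h1
    exact ⟨d, h4, Ph_inj (by rw [← kd_Ph h4, h2, e0]), by rwa [← e]⟩
  · rintro ⟨d, h1, h2, h3⟩
    exact ⟨_, chain_iff.2 ⟨d, h1, rfl⟩, by rw [kd_Ph h1, h2, e0], by rwa [e]⟩

lemma span_pow (B : Set (Fin n →₀ ℕ)) (k : ℕ) :
    Ideal.span ((fun a => monomial a (1 : K)) '' B) ^ k =
      Ideal.span ((fun a => monomial a (1 : K)) '' Sm B k) := by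
  rw [Ideal.span, Submodule.span_pow, Ideal.span]
  congr 1
  ext g
  simp only [Set.mem_pow, List.prod_ofFn]
  refine ⟨fun ⟨f, hf⟩ => ?_, ?_⟩
  · choose b hb h using fun i => (f i).2
    exact ⟨_, ⟨b, hb, rfl⟩, by simpa only [monomial_sum_one, h] using hf⟩
  · rintro ⟨_, ⟨b, hb, rfl⟩, rfl⟩
    exact ⟨fun i => ⟨_, b i, hb i, rfl⟩, (monomial_sum_one _ _).symm⟩

lemma IsPolymatroidal.mc {I : Ideal (MvPolynomial (Fin n) K)} (h : IsPolymatroidal I) :
    ∃ B, MC B ∧ I = Ideal.span ((fun a => monomial a (1 : K)) '' B) := by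
  obtain ⟨B, h1, h2, h3⟩ := h
  refine ⟨B, ⟨fun u hu v hv => by simpa [Finsupp.degree_eq_sum] using h2 u hu v hv,
    fun u hu v hv p hp => ?_⟩, h1⟩
  obtain ⟨q, h4, h5⟩ := h3 u hu v hv p hp
  refine ⟨q, h4, _, h5, fun j => ?_⟩
  simp only [Finsupp.add_apply, Finsupp.tsub_apply, Finsupp.single_apply]
  grind

lemma HS_pow (hB : MC B) (i k : ℕ) :
    HS i (Ideal.span ((fun a => monomial a (1 : K)) '' B) ^ k) =
      Ideal.span ((fun a => monomial a (1 : K)) '' {a | HSc (Sm B k) i a}) := by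
  simp only [HS, span_pow, tor_iff (hB.sm k)]

end Pool.Agent.HShift
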